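import Pool.Agent.H28.N6.Targets
import Pool.Agent.H28.N6.Lib

/-!
# QUA: the quaternary lemma from the simple case
-/

set_option autoImplicit false
open MeasureTheory Matrix Pool.Agent.H28.N6

namespace Pool.Agent.H50.N6D

theorem det_ne_zero_of_ani {F : Type} [Field F] {n : ℕ} {B : Matrix (Fin n) (Fin n) F}
    (h : Ani B) : B.det ≠ 0 := by
  intro h0
  obtain ⟨v, hv, hv2⟩ := Matrix.exists_mulVec_eq_zero_iff.2 h0
  exact h v hv (by unfold qf; rw [hv2, dotProduct_zero])

theorem qua_core (hSEP : T_SEP) (hDEN : T_DEN) (hSIM : T_SIM) (hCPT : T_CPT) (F : Type)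
    [NontriviallyNormedField F] [IsUltrametricDist F] [ProperSpace F] (h2 : (2 : F) ≠ 0)
    (A B : Matrix (Fin 4) (Fin 4) F) (hA : A.transpose = A) (hB : B.transpose = B)
    (hani : Ani B) : ∃ a b : F, (a ≠ 0 ∨ b ≠ 0) ∧ IsoSp (a • A + b • B) 2 := by
  apply hCPT F A B
  intro δ hδ
  obtain ⟨A', hA', h1, h3⟩ := hDEN F 4 A B hA hB hani ∅ δ hδ
  have hs : Simple A' B := hSIM F 4 A' B (det_ne_zero_of_ani hani) (fun r hr => (h3 r hr).2)
  obtain ⟨a, b, hab, h⟩ := hSEP F h2 A' B hA' hB hs ⟨0, 1, by simpa using hani⟩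
  exact ⟨A', B, h1, fun i j => by simpa using hδ, a, b, hab, h⟩

theorem pf_QUA (hSEP : T_SEP) (hDEN : T_DEN) (hSIM : T_SIM) (hCPT : T_CPT) : T_QUA := by
  intro F _ _ _ h2 A B hA hB ⟨a, b, hab⟩
  have hB1 : (a • A + b • B).transpose = a • A + b • B := by
    rw [transpose_add, transpose_smul, transpose_smul, hA, hB]
  by_cases hb : b = 0
  · have ha : a ≠ 0 := by
      rintro rfl
      subst hb
      exact hab (fun _ => 1) (by intro h; have := congrFun h 0; simp at this) (by simp [qf])
    obtain ⟨c, d, hcd, h⟩ := qua_core hSEP hDEN hSIM hCPT F h2 B _ hB hB1 hab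
    refine ⟨d * a, c + d * b, ?_, ?_⟩
    · subst hb
      rcases hcd with hc | hd
      · right; simpa using hc
      · left; exact mul_ne_zero hd ha
    · have e : (d * a) • A + (c + d * b) • B = c • B + d • (a • A + b • B) := by
        simp only [add_smul, mul_smul, smul_add]; abel
      rw [e]; exact h
  · obtain ⟨c, d, hcd, h⟩ := qua_core hSEP hDEN hSIM hCPT F h2 A _ hA hB1 hab
    refine ⟨c + d * a, d * b, ?_, ?_⟩
    · by_cases hd : d = 0
      · left; subst hd; simpa using hcd
      · right; exact mul_ne_zero hd hb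
    · have e : (c + d * a) • A + (d * b) • B = c • A + d • (a • A + b • B) := by
        simp only [add_smul, mul_smul, smul_add]; abel
      rw [e]; exact h

end Pool.Agent.H50.N6D
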