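import Pool.Agent.H28.N6.Targets
import Pool.Agent.H28.N6.Lib

/-!
# SIM: simple roots on the projective line
-/

set_option autoImplicit false
open MeasureTheory Matrix Pool.Agent.H28.N6

namespace Pool.Agent.H50.N6D

theorem pf_SIM : T_SIM := by
  intro F _ n A B hB h
  refine ⟨h, ?_⟩
  intro r hr
  have hr0 : r ≠ 0 := by
    rintro rfl
    rw [dp_eval] at hr
    apply hB
    simpa using hr
  have e : ∀ x : F, x ≠ 0 → (dp B A).eval x = x ^ n * (dp A B).eval x⁻¹ := by
    intro x hx
    rw [dp_eval, dp_eval]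
    have h1 : B + x • A = x • (A + x⁻¹ • B) := by
      rw [smul_add, smul_smul, mul_inv_cancel₀ hx, one_smul, add_comm]
    rw [h1, det_smul, Fintype.card_fin]
  have hP : (dp A B).eval r⁻¹ = 0 := by
    have h1 := e r hr0
    rw [hr] at h1
    rcases mul_eq_zero.1 h1.symm with h | h
    · exact absurd h (pow_ne_zero _ hr0)
    · exact h
  have hP' := h _ hP
  have d1 : HasDerivAt (fun x => (dp B A).eval x) ((dp B A).derivative.eval r) r :=
    (dp B A).hasDerivAt r
  have d2 : HasDerivAt (fun x => x ^ n * (dp A B).eval x⁻¹)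
      (↑n * r ^ (n - 1) * (dp A B).eval r⁻¹ +
        r ^ n * ((dp A B).derivative.eval r⁻¹ * (-(r ^ 2)⁻¹))) r := by
    have i1 := hasDerivAt_pow n r
    have i2 := ((dp A B).hasDerivAt r⁻¹).comp r (hasDerivAt_inv hr0)
    exact i1.mul i2
  have d3 : HasDerivAt (fun x => (dp B A).eval x)
      (↑n * r ^ (n - 1) * (dp A B).eval r⁻¹ +
        r ^ n * ((dp A B).derivative.eval r⁻¹ * (-(r ^ 2)⁻¹))) r := by
    refine d2.congr_of_eventuallyEq ?_
    filter_upwards [isOpen_ne.mem_nhds hr0] with x hx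
    exact e x hx
  rw [d1.unique d3, hP, mul_zero, zero_add]
  exact mul_ne_zero (pow_ne_zero _ hr0)
    (mul_ne_zero hP' (neg_ne_zero.2 (inv_ne_zero (pow_ne_zero _ hr0))))

end Pool.Agent.H50.N6D
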